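import Pool.Agent.H950.Nag.NFM

/-!
# Averages of Mestre-Nagao sums and the Birch and Swinnerton-Dyer conjecture

Let `E : y² = x³ + a x + b` be an elliptic curve over a number field `K` with integral coefficients
and `F` an entire continuation of its `L`-function without the factors at the places dividing
`2 (4 a³ + 27 b²)`. Let `m` be the order of `F` at `s = 1`, let `MN(n)` be the sum of
`-t_k(v) log q_v / q_v ^ k` over the good places `v` and the `k ≥ 1` with `q_v ^ k ≤ n`, where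
`t_k(v) = q_v ^ k + 1 - #E(k_{v,k})` is the trace of the `k`-th power of Frobenius, let `NA(κ, x)` be the
logarithmic average of `MN(n) - κ log n` over `2 ≤ n ≤ x`, and let `MA(x)` be `2 / (log x)^2` times the
sum of `MN(n) / n` over `2 ≤ n ≤ x`.

1. If `κ < m`, or if `F` has a zero with `Re s > 1`, then `MN(x) - κ log x` is unbounded above,
   even in logarithmic average.
2. Suppose that `F` has no real zero `> 1`. If `κ > m`, or if `F` has a zero with `Re s > 1`, then
   `MN(x) - κ log x` is unbounded below, even in logarithmic average.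
3. Suppose that `F` has polynomial growth in `Re s ≥ 1`. Then the Riemann hypothesis (`F(s) ≠ 0` for
   `Re s > 1`) holds if and only if `MA` is bounded above, if and only if `MA` converges, and then
   the limit is `m`. In particular `MA` converges to the rank of `E(K)` if and only if the
   Riemann hypothesis holds and `m` is the rank of `E(K)`.
-/

set_option autoImplicit false

open Filter Topology NumberField
open scoped Classical

namespace Pool.Agent.Results.MP_ae0bd0_nt.AveragedNagaoSums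

open Pool.Agent.H438R3.BSD.NF (IsL)
open Pool.Agent.H950.Nag.NFN

/-- See the introduction. -/
theorem result (K : Type) [Field K] [NumberField K] (a b : 𝓞 K)
    (_hab : 4 * a ^ 3 + 27 * b ^ 2 ≠ 0) (F : ℂ → ℂ) (hF : IsL a b F) :
    ∃ m : ℕ, analyticOrderAt F 1 = m ∧
    (∀ κ : ℝ, (κ < m ∨ ∃ ρ : ℂ, 1 < ρ.re ∧ F ρ = 0) → ∀ C : ℝ,
      (∃ᶠ x : ℕ in atTop, C < NA a b κ x) ∧
      ∃ᶠ x : ℕ in atTop, κ * Real.log x + C < MN a b x) ∧
    ((∀ σ : ℝ, 1 < σ → F σ ≠ 0) →
      ∀ κ : ℝ, ((m : ℝ) < κ ∨ ∃ ρ : ℂ, 1 < ρ.re ∧ F ρ = 0) → ∀ C : ℝ,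
      (∃ᶠ x : ℕ in atTop, NA a b κ x < C) ∧
      ∃ᶠ x : ℕ in atTop, MN a b x < κ * Real.log x + C) ∧
    ((∃ C A : ℝ, ∀ s : ℂ, 1 ≤ s.re → ‖F s‖ ≤ C * (1 + ‖s‖) ^ A) →
      List.TFAE [
        ∀ s : ℂ, 1 < s.re → F s ≠ 0,
        ∃ C : ℝ, ∀ᶠ x : ℕ in atTop, MA a b x ≤ C,
        ∃ t : ℝ, Tendsto (fun x : ℕ => MA a b x) atTop (𝓝 t),
        Tendsto (fun x : ℕ => MA a b x) atTop (𝓝 m)] ∧
      (∀ κ : ℝ, Tendsto (fun x : ℕ => MA a b x) atTop (𝓝 κ) ↔
        (∀ s : ℂ, 1 < s.re → F s ≠ 0) ∧ κ = m) ∧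
      (Tendsto (fun x : ℕ => MA a b x) atTop
          (𝓝 (Module.finrank ℤ
            (WeierstrassCurve.mk 0 0 0 (a : K) (b : K)).toAffine.Point : ℝ)) ↔
        (∀ s : ℂ, 1 < s.re → F s ≠ 0) ∧
          Module.finrank ℤ (WeierstrassCurve.mk 0 0 0 (a : K) (b : K)).toAffine.Point = m)) := by
  obtain ⟨m, hm, h1, h2⟩ := main a b F hF
  refine ⟨m, hm, h1, h2, fun hgr => ?_⟩
  obtain ⟨h3, h4⟩ := equivMA a b hF hgr m hm
  refine ⟨h3, h4, ?_⟩
  rw [h4]
  exact and_congr_right fun _ => Nat.cast_inj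

end Pool.Agent.Results.MP_ae0bd0_nt.AveragedNagaoSums
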